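import Pool.Agent.W361.LQ.Stm

set_option autoImplicit false

/-! LQ-TAB: a table for the jump (helper162). -/

namespace Pool.Agent.W162.LQTab

open Pool.Agent.Helper227 Pool.Agent.H685R3 Pool.Agent.W361.LQ

theorem main : S_TAB := by
  classical
  intro D
  obtain ⟨E, ⟨q, hq, -, eq⟩, -, eE⟩ := si_jump D
  have hs : Primrec fun x : ℕ × Bool => x.1.unpair.2.unpair.1 :=
    Primrec.fst.comp (Primrec.unpair.comp (Primrec.snd.comp (Primrec.unpair.comp Primrec.fst)))
  have hQ : PrimrecPred fun y : List Bool × (ℕ × Bool) =>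
      q (y.1, y.2.1.unpair.1) y.2.1.unpair.2.unpair.2 :=
    hq.comp (Primrec.fst.pair (Primrec.fst.comp (Primrec.unpair.comp
      (Primrec.fst.comp Primrec.snd)))) (Primrec.snd.comp (Primrec.unpair.comp
        (Primrec.snd.comp (Primrec.unpair.comp (Primrec.fst.comp Primrec.snd)))))
  have h1 : SI D fun x : ℕ × Bool =>
      q (pre D x.1.unpair.2.unpair.1, x.1.unpair.1) x.1.unpair.2.unpair.2 :=
    (US.at_pre (Q := fun y : List Bool × (ℕ × Bool) =>
      q (y.1, y.2.1.unpair.1) y.2.1.unpair.2.unpair.2) hQ hs).toSI D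
  have h2 : SI D fun x : ℕ × Bool =>
      ¬ q (pre D x.1.unpair.2.unpair.1, x.1.unpair.1) x.1.unpair.2.unpair.2 :=
    (US.at_pre (Q := fun y : List Bool × (ℕ × Bool) =>
      ¬ q (y.1, y.2.1.unpair.1) y.2.1.unpair.2.unpair.2) hQ.not hs).toSI D
  refine ⟨fun n y => decide (q (pre D y.unpair.1, n) y.unpair.2), ?_, ?_⟩
  · rw [tLe_iff_SI]
    refine (SI.or (SI.and h1 (SI.of_prim (Primrec.eq.comp Primrec.snd (Primrec.const true))))
      (SI.and h2 (SI.of_prim (Primrec.eq.comp Primrec.snd (Primrec.const false))))).of_eq ?_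
    rintro ⟨m, b⟩
    cases b <;> simp
  · intro n
    refine (eE n).trans ?_
    constructor
    · rintro ⟨s, hs⟩
      obtain ⟨m, hm⟩ := (eq _).1 hs
      exact ⟨Nat.pair s m, by simpa using hm⟩
    · rintro ⟨y, hy⟩
      exact ⟨y.unpair.1, (eq _).2 ⟨y.unpair.2, by simpa using hy⟩⟩

end Pool.Agent.W162.LQTab
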